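import Pool.Agent.H110R3.Urn.Stmts

/-! Task R3 of the project H110-URN, by helper872. -/

namespace Pool.Agent.H872R3.Urn

open Filter Topology Pool.Agent.H110R3.Urn

/-- the strict derivative of `pp` in two coordinates -/
theorem pp_strict {m : ℕ} (α : ℝ) (v : Fin m → ℝ) (hv : ∀ i, 0 < v i) (i j : Fin m) :
    HasStrictFDerivAt (fun x : Fin m → ℝ => pp α (x i) (x j))
      ((α * ww α (v i) (v j)) •
        ((v i)⁻¹ • ContinuousLinearMap.proj (R := ℝ) (φ := fun _ : Fin m => ℝ) i -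
          (v j)⁻¹ • ContinuousLinearMap.proj (R := ℝ) (φ := fun _ : Fin m => ℝ) j)) v := by
  have hi : HasStrictFDerivAt (fun x : Fin m → ℝ => x i)
      (ContinuousLinearMap.proj (R := ℝ) (φ := fun _ : Fin m => ℝ) i) v :=
    (ContinuousLinearMap.proj (R := ℝ) (φ := fun _ : Fin m => ℝ) i).hasStrictFDerivAt
  have hj : HasStrictFDerivAt (fun x : Fin m → ℝ => x j)
      (ContinuousLinearMap.proj (R := ℝ) (φ := fun _ : Fin m => ℝ) j) v :=
    (ContinuousLinearMap.proj (R := ℝ) (φ := fun _ : Fin m => ℝ) j).hasStrictFDerivAt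
  have hvi := hv i
  have hvj := hv j
  have hpi : 0 < (v i) ^ α := Real.rpow_pos_of_pos hvi α
  have hpj : 0 < (v j) ^ α := Real.rpow_pos_of_pos hvj α
  have h1 := hi.rpow_const (p := α) (Or.inl hvi.ne')
  have h2 := hj.rpow_const (p := α) (Or.inl hvj.ne')
  have h3 := h1.add h2
  have hne : (v i) ^ α + (v j) ^ α ≠ 0 := by positivity
  have h4 := (hasStrictDerivAt_inv hne).comp_hasStrictFDerivAt v h3
  have h5 := h1.mul h4
  refine (h5.congr_fderiv ?_).congr_of_eventuallyEq ?_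
  · ext z
    have e1 : (v i) ^ (α - 1) = (v i) ^ α * (v i)⁻¹ := by
      rw [Real.rpow_sub hvi, Real.rpow_one, div_eq_mul_inv]
    have e2 : (v j) ^ (α - 1) = (v j) ^ α * (v j)⁻¹ := by
      rw [Real.rpow_sub hvj, Real.rpow_one, div_eq_mul_inv]
    simp only [ContinuousLinearMap.add_apply, ContinuousLinearMap.smul_apply,
      ContinuousLinearMap.sub_apply, ContinuousLinearMap.proj_apply, smul_eq_mul, ww, pp,
      Function.comp, e1, e2, Pi.add_apply]
    field_simp
    ring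
  · refine Eventually.of_forall fun x => ?_
    simp only [pp, Function.comp, Pi.mul_apply, div_eq_mul_inv, Pi.add_apply]

/-- the strict derivative of the drift -/
theorem GG_strict {m : ℕ} (G : SimpleGraph (Fin m)) [DecidableRel G.Adj] (α : ℝ)
    (v : Fin m → ℝ) (hv : ∀ i, 0 < v i) (i : Fin m) :
    ∃ L : (Fin m → ℝ) →L[ℝ] ℝ, (∀ z, L z = JJ G α v z i) ∧
      HasStrictFDerivAt (fun x : Fin m → ℝ => GG G α x i) L v := by
  have hi : HasStrictFDerivAt (fun x : Fin m → ℝ => x i)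
      (ContinuousLinearMap.proj (R := ℝ) (φ := fun _ : Fin m => ℝ) i) v :=
    (ContinuousLinearMap.proj (R := ℝ) (φ := fun _ : Fin m => ℝ) i).hasStrictFDerivAt
  have h1 : ∀ j ∈ (Finset.univ : Finset (Fin m)), HasStrictFDerivAt
      (fun x : Fin m → ℝ => if G.Adj i j then pp α (x i) (x j) else 0)
      (if G.Adj i j then ((α * ww α (v i) (v j)) •
        ((v i)⁻¹ • ContinuousLinearMap.proj (R := ℝ) (φ := fun _ : Fin m => ℝ) i -
          (v j)⁻¹ • ContinuousLinearMap.proj (R := ℝ) (φ := fun _ : Fin m => ℝ) j)) else 0)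
      v := by
    intro j _
    by_cases h : G.Adj i j
    · simp only [if_pos h]
      exact pp_strict α v hv i j
    · simp only [if_neg h]
      exact hasStrictFDerivAt_const _ _
  have h2 := HasStrictFDerivAt.fun_sum h1
  have h3 := h2.sub (hi.const_mul (NE G : ℝ))
  refine ⟨_, ?_, h3⟩
  intro z
  simp only [ContinuousLinearMap.sub_apply, ContinuousLinearMap.sum_apply,
    ContinuousLinearMap.smul_apply, ContinuousLinearMap.proj_apply, smul_eq_mul, JJ,
    Finset.mul_sum]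
  congr 1
  refine Finset.sum_congr rfl fun j _ => ?_
  by_cases h : G.Adj i j
  · simp only [if_pos h, ContinuousLinearMap.smul_apply, ContinuousLinearMap.sub_apply,
      ContinuousLinearMap.proj_apply, smul_eq_mul]
    ring
  · simp [if_neg h]

theorem norm_sq_le {m : ℕ} (z : Fin m → ℝ) : ‖z‖ ^ 2 ≤ ∑ i, (z i) ^ 2 := by
  have h0 : 0 ≤ ∑ i, (z i) ^ 2 := Finset.sum_nonneg fun i _ => sq_nonneg _
  have h1 : ‖z‖ ≤ Real.sqrt (∑ i, (z i) ^ 2) := by
    rw [pi_norm_le_iff_of_nonneg (Real.sqrt_nonneg _)]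
    intro i
    rw [Real.norm_eq_abs]
    apply Real.abs_le_sqrt
    exact Finset.single_le_sum (f := fun i => (z i) ^ 2) (fun i _ => sq_nonneg _)
      (Finset.mem_univ i)
  calc ‖z‖ ^ 2 ≤ (Real.sqrt (∑ i, (z i) ^ 2)) ^ 2 := by
        exact pow_le_pow_left₀ (norm_nonneg _) h1 2
    _ = _ := Real.sq_sqrt h0

/-- Task R3 -/
theorem taskR3 : TaskR3 := by
  intro m G _ α v _ hv Q c σ hc hσ hQ hform hsig
  choose L hL hLs using GG_strict G α v hv
  set A : ℝ := (∑ i, ∑ j, |Q i j|) with hA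
  have hA0 : 0 ≤ A := Finset.sum_nonneg fun i _ => Finset.sum_nonneg fun j _ => abs_nonneg _
  set ε : ℝ := min 1 (c / (2 * (A + 1))) with hε
  have hε0 : 0 < ε := lt_min one_pos (by positivity)
  have hε1 : ε ≤ 1 := min_le_left _ _
  have hεA : ε * A ≤ c / 2 := by
    have h1 : ε ≤ c / (2 * (A + 1)) := min_le_right _ _
    calc ε * A ≤ c / (2 * (A + 1)) * A := mul_le_mul_of_nonneg_right h1 hA0
      _ = (c / 2) * (A / (A + 1)) := by field_simp
      _ ≤ (c / 2) * 1 := by
          apply mul_le_mul_of_nonneg_left _ (by positivity)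
          rw [div_le_one (by positivity)]
          linarith
      _ = c / 2 := mul_one _
  have hev1 : ∀ᶠ p : (Fin m → ℝ) × (Fin m → ℝ) in 𝓝 (v, v),
      ∀ i, |GG G α p.1 i - GG G α p.2 i - L i (p.1 - p.2)| ≤ ε * ‖p.1 - p.2‖ := by
    rw [eventually_all]
    intro i
    have := (hLs i).isLittleO.def hε0
    simpa [Real.norm_eq_abs] using this
  have hcont : ContinuousAt (fun x : Fin m → ℝ => ∑ e : Ed G, ww α (x e.1.1) (x e.1.2) *
      (Q e.1.1 e.1.1 - 2 * Q e.1.1 e.1.2 + Q e.1.2 e.1.2)) v := by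
    apply tendsto_finset_sum
    intro e _
    apply Tendsto.mul_const
    have := (pp_strict α v hv e.1.1 e.1.2).continuousAt
    have h2 : ContinuousAt (fun x : Fin m → ℝ => pp α (x e.1.1) (x e.1.2) *
      (1 - pp α (x e.1.1) (x e.1.2))) v := this.mul (continuousAt_const.sub this)
    exact h2
  have hev2 : ∀ᶠ x : Fin m → ℝ in 𝓝 v, σ / 2 < ∑ e : Ed G, ww α (x e.1.1) (x e.1.2) *
      (Q e.1.1 e.1.1 - 2 * Q e.1.1 e.1.2 + Q e.1.2 e.1.2) :=
    hcont.eventually (lt_mem_nhds (by linarith))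
  rw [Metric.eventually_nhds_iff] at hev1 hev2
  obtain ⟨r1, hr1, H1⟩ := hev1
  obtain ⟨r2, hr2, H2⟩ := hev2
  have hdist : ∀ ρ : ℝ, 0 < ρ → ∀ x : Fin m → ℝ, (∀ i, |x i - v i| < ρ) → dist x v < ρ := by
    intro ρ hρ x hx
    rw [dist_pi_lt_iff hρ]
    intro i
    rw [Real.dist_eq]
    exact hx i
  set B : ℝ := ∑ i, (‖L i‖ + 1) ^ 2 with hB
  have hB0 : 0 ≤ B := Finset.sum_nonneg fun i _ => sq_nonneg _
  refine ⟨min r1 r2, min (c / 2) (1 / (B + 1)), σ / 2, lt_min hr1 hr2,
    lt_min (by positivity) (by positivity), by positivity, hQ, ?_, ?_, ?_⟩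
  · intro x x' hx hx'
    have hx1 : dist (x, x') (v, v) < r1 := by
      rw [Prod.dist_eq, max_lt_iff]
      exact ⟨hdist r1 hr1 x fun i => lt_of_lt_of_le (hx i) (min_le_left _ _),
        hdist r1 hr1 x' fun i => lt_of_lt_of_le (hx' i) (min_le_left _ _)⟩
    have h1 := H1 hx1
    simp only at h1
    set z : Fin m → ℝ := x - x' with hz
    have hz2 := norm_sq_le z
    have hzS : ∑ i, (x i - x' i) ^ 2 = ∑ i, (z i) ^ 2 := rfl
    rw [hzS]
    have hS0 : 0 ≤ ∑ i, (z i) ^ 2 := Finset.sum_nonneg fun i _ => sq_nonneg _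
    have key : ∑ i, ∑ j, Q i j * z i * JJ G α v z j - ε * A * ∑ i, (z i) ^ 2 ≤
        ∑ i, ∑ j, Q i j * (x i - x' i) * (GG G α x j - GG G α x' j) := by
      have h2 : ∀ i j, Q i j * z i * JJ G α v z j - ε * |Q i j| * ‖z‖ ^ 2 ≤
          Q i j * (x i - x' i) * (GG G α x j - GG G α x' j) := by
        intro i j
        have h3 := h1 j
        rw [hL j z] at h3
        have h4 : |z i| ≤ ‖z‖ := by
          rw [← Real.norm_eq_abs]
          exact norm_le_pi_norm z i
        have h5 : |Q i j * z i * (GG G α x j - GG G α x' j - JJ G α v z j)| ≤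
            |Q i j| * ‖z‖ * (ε * ‖z‖) := by
          rw [abs_mul, abs_mul]
          apply mul_le_mul _ h3 (abs_nonneg _) (by positivity)
          exact mul_le_mul_of_nonneg_left h4 (abs_nonneg _)
        have h6 := (abs_le.mp h5).1
        have h7 : (x i - x' i) = z i := rfl
        rw [h7]
        nlinarith [h6]
      have h3 : ∑ i, ∑ j, Q i j * z i * JJ G α v z j - ε * A * ‖z‖ ^ 2 ≤
        ∑ i, ∑ j, Q i j * (x i - x' i) * (GG G α x j - GG G α x' j) := by
        have h4 : ε * A * ‖z‖ ^ 2 = ∑ i, ∑ j, ε * |Q i j| * ‖z‖ ^ 2 := by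
          rw [hA, Finset.mul_sum, Finset.sum_mul]
          refine Finset.sum_congr rfl fun i _ => ?_
          rw [Finset.mul_sum, Finset.sum_mul]
        rw [h4, ← Finset.sum_sub_distrib]
        refine Finset.sum_le_sum fun i _ => ?_
        rw [← Finset.sum_sub_distrib]
        exact Finset.sum_le_sum fun j _ => h2 i j
      have h5 : ε * A * ‖z‖ ^ 2 ≤ ε * A * ∑ i, (z i) ^ 2 :=
        mul_le_mul_of_nonneg_left hz2 (by positivity)
      linarith
    have h8 := hform z
    have h9 : ε * A * ∑ i, (z i) ^ 2 ≤ c / 2 * ∑ i, (z i) ^ 2 :=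
      mul_le_mul_of_nonneg_right hεA hS0
    have h10 : min (c / 2) (1 / (B + 1)) * ∑ i, (z i) ^ 2 ≤ c / 2 * ∑ i, (z i) ^ 2 :=
      mul_le_mul_of_nonneg_right (min_le_left _ _) hS0
    linarith
  · intro x hx
    exact (H2 (hdist r2 hr2 x fun i => lt_of_lt_of_le (hx i) (min_le_right _ _))).le
  · intro x x' hx hx'
    have hx1 : dist (x, x') (v, v) < r1 := by
      rw [Prod.dist_eq, max_lt_iff]
      exact ⟨hdist r1 hr1 x fun i => lt_of_lt_of_le (hx i) (min_le_left _ _),
        hdist r1 hr1 x' fun i => lt_of_lt_of_le (hx' i) (min_le_left _ _)⟩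
    have h1 := H1 hx1
    simp only at h1
    set z : Fin m → ℝ := x - x' with hz
    have hz2 := norm_sq_le z
    have hzS : ∑ i, (x i - x' i) ^ 2 = ∑ i, (z i) ^ 2 := rfl
    rw [hzS]
    have hS0 : 0 ≤ ∑ i, (z i) ^ 2 := Finset.sum_nonneg fun i _ => sq_nonneg _
    have h2 : ∀ i, (GG G α x i - GG G α x' i) ^ 2 ≤ (‖L i‖ + 1) ^ 2 * ‖z‖ ^ 2 := by
      intro i
      have h3 := h1 i
      have h4 : |L i z| ≤ ‖L i‖ * ‖z‖ := by
        rw [← Real.norm_eq_abs]
        exact (L i).le_opNorm z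
      have h5 : |GG G α x i - GG G α x' i| ≤ (‖L i‖ + 1) * ‖z‖ := by
        have h6 : GG G α x i - GG G α x' i = (GG G α x i - GG G α x' i - L i z) + L i z := by
          ring
        rw [h6]
        refine (abs_add_le _ _).trans ?_
        have h7 : ε * ‖z‖ ≤ 1 * ‖z‖ := mul_le_mul_of_nonneg_right hε1 (norm_nonneg _)
        linarith
      rw [← mul_pow, ← sq_abs]
      exact pow_le_pow_left₀ (abs_nonneg _) h5 2
    have h3 : ∑ i, (GG G α x i - GG G α x' i) ^ 2 ≤ B * ‖z‖ ^ 2 := by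
      rw [hB, Finset.sum_mul]
      exact Finset.sum_le_sum fun i _ => h2 i
    have h4 : B * ‖z‖ ^ 2 ≤ B * ∑ i, (z i) ^ 2 := mul_le_mul_of_nonneg_left hz2 hB0
    have hcp : 0 < min (c / 2) (1 / (B + 1)) := lt_min (by positivity) (by positivity)
    have h5 : B ≤ 1 / min (c / 2) (1 / (B + 1)) := by
      rw [le_div_iff₀ hcp]
      calc B * min (c / 2) (1 / (B + 1)) ≤ B * (1 / (B + 1)) :=
            mul_le_mul_of_nonneg_left (min_le_right _ _) hB0
        _ = B / (B + 1) := by ring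
        _ ≤ 1 := by
            rw [div_le_one (by positivity)]
            linarith
    have h6 : B * ∑ i, (z i) ^ 2 ≤ 1 / min (c / 2) (1 / (B + 1)) * ∑ i, (z i) ^ 2 :=
      mul_le_mul_of_nonneg_right h5 hS0
    linarith

end Pool.Agent.H872R3.Urn
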